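import Pool.Agent.N936.TC.Stm

/-! TC/WCONN (helper971 for helper936): the set W is connected. -/

set_option autoImplicit false

namespace Pool.Agent.N971.TC

open Set Topology Pool.Agent.N936.TC

/-- The projection of the line to the unit interval. -/
noncomputable def pj (s : ℝ) : I := projIcc 0 1 zero_le_one s

theorem pj_cont : Continuous pj := continuous_projIcc (h := zero_le_one)

theorem pj_coe {s : ℝ} (h0 : 0 ≤ s) (h1 : s ≤ 1) : (pj s : ℝ) = s := by
  unfold pj
  rw [projIcc_of_mem zero_le_one (show s ∈ Icc (0 : ℝ) 1 from ⟨h0, h1⟩)]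

theorem pj_zero : pj 0 = 0 := by
  apply Subtype.ext
  rw [pj_coe le_rfl zero_le_one]
  rfl

theorem pj_one : pj 1 = 1 := by
  apply Subtype.ext
  rw [pj_coe zero_le_one le_rfl]
  rfl

theorem pj_self (s : I) : pj (s : ℝ) = s := by
  apply Subtype.ext
  rw [pj_coe s.2.1 s.2.2]

section
variable {X : Type} [TopologicalSpace X] {Φ : Q × Bool × I → X}

omit [TopologicalSpace X] in
theorem memW {q : Q} {i : Bool} {s : ℝ} {r : Q} {j : Bool} {t : ℝ}
    (hs0 : 0 ≤ s) (hs1 : s ≤ 1) (ht0 : 0 ≤ t) (ht1 : t ≤ 1) (h : M1 i s t) :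
    (Φ (q, i, pj s), Φ (r, j, pj t)) ∈ Wset Φ := by
  refine ⟨q, i, pj s, r, j, pj t, ?_, rfl⟩
  rw [pj_coe hs0 hs1, pj_coe ht0 ht1]
  exact h

theorem hseg (hΦ : Continuous Φ) {f : X × X → Bool} (hf : ContinuousOn f (Wset Φ))
    (q : Q) (i : Bool) (r : Q) (j : Bool) (lo hi : ℝ) (hlo : 0 ≤ lo) (hhi : hi ≤ 1) {t : ℝ}
    (ht0 : 0 ≤ t) (ht1 : t ≤ 1) (h : ∀ u, lo ≤ u → u ≤ hi → M1 i u t) {s s' : ℝ}
    (hs : lo ≤ s) (hs1 : s ≤ hi) (hs' : lo ≤ s') (hs1' : s' ≤ hi) :
    f (Φ (q, i, pj s), Φ (r, j, pj t)) = f (Φ (q, i, pj s'), Φ (r, j, pj t)) := by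
  have hg : Continuous (fun u : ℝ => (Φ (q, i, pj u), Φ (r, j, pj t))) :=
    (hΦ.comp (continuous_const.prodMk (continuous_const.prodMk pj_cont))).prodMk continuous_const
  have hc : ContinuousOn (fun u : ℝ => f (Φ (q, i, pj u), Φ (r, j, pj t))) (Icc lo hi) := by
    refine hf.comp hg.continuousOn ?_
    intro u hu
    exact memW (hlo.trans hu.1) (hu.2.trans hhi) ht0 ht1 (h u hu.1 hu.2)
  exact isPreconnected_Icc.constant hc ⟨hs, hs1⟩ ⟨hs', hs1'⟩

theorem vseg (hΦ : Continuous Φ) {f : X × X → Bool} (hf : ContinuousOn f (Wset Φ))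
    (q : Q) (i : Bool) (r : Q) (j : Bool) (lo hi : ℝ) (hlo : 0 ≤ lo) (hhi : hi ≤ 1) {s : ℝ}
    (hs0 : 0 ≤ s) (hs1 : s ≤ 1) (h : ∀ u, lo ≤ u → u ≤ hi → M1 i s u) {t t' : ℝ}
    (ht : lo ≤ t) (ht1 : t ≤ hi) (ht' : lo ≤ t') (ht1' : t' ≤ hi) :
    f (Φ (q, i, pj s), Φ (r, j, pj t)) = f (Φ (q, i, pj s), Φ (r, j, pj t')) := by
  have hg : Continuous (fun u : ℝ => (Φ (q, i, pj s), Φ (r, j, pj u))) :=
    continuous_const.prodMk (hΦ.comp (continuous_const.prodMk (continuous_const.prodMk pj_cont)))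
  have hc : ContinuousOn (fun u : ℝ => f (Φ (q, i, pj s), Φ (r, j, pj u))) (Icc lo hi) := by
    refine hf.comp hg.continuousOn ?_
    intro u hu
    exact memW hs0 hs1 (hlo.trans hu.1) (hu.2.trans hhi) (h u hu.1 hu.2)
  exact isPreconnected_Icc.constant hc ⟨ht, ht1⟩ ⟨ht', ht1'⟩

end

theorem t_wconn : S_WCONN := by
  intro σ X _ _ Φ hΦ bot top htr
  -- the initial point
  refine ⟨⟨(Φ (fun _ => false, false, pj 0), Φ (fun _ => false, false, pj (1/8))),
    memW le_rfl zero_le_one (by norm_num) (by norm_num) (Or.inl rfl)⟩, ?_⟩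
  refine isPreconnected_of_forall_constant fun f hf => ?_
  -- the four identifications
  have bot0 : ∀ q i i' (z : X), f (Φ (q, i, pj 0), z) = f (Φ (q, i', pj 0), z) := by
    intro q i i' z
    rw [pj_zero, bot q i i']
  have top0 : ∀ q i i' (z : X), f (Φ (q, i, pj 1), z) = f (Φ (σ i q, i', pj 0), z) := by
    intro q i i' z
    rw [pj_zero, pj_one, top q i i']
  have top1 : ∀ r j j' (z : X), f (z, Φ (r, j, pj 1)) = f (z, Φ (σ j r, j', pj 0)) := by
    intro r j j' z
    rw [pj_zero, pj_one, top r j j']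
  -- horizontal moves
  have hA : ∀ q r j (s : ℝ), 0 ≤ s → s ≤ 1 →
      f (Φ (q, false, pj s), Φ (r, j, pj (1/8))) = f (Φ (q, false, pj 0), Φ (r, j, pj (1/8))) := by
    intro q r j s h0 h1
    exact hseg hΦ hf q false r j 0 1 le_rfl le_rfl (by norm_num) (by norm_num)
      (fun u _ _ => Or.inl rfl) h0 h1 le_rfl zero_le_one
  have hA' : ∀ q r j (s : ℝ), 0 ≤ s → s ≤ 1/4 →
      f (Φ (q, true, pj s), Φ (r, j, pj (1/8))) = f (Φ (q, false, pj 0), Φ (r, j, pj (1/8))) := by
    intro q r j s h0 h1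
    rw [bot0 q false true]
    exact hseg hΦ hf q true r j 0 (1/4) le_rfl (by norm_num) (by norm_num) (by norm_num)
      (fun u _ hu => Or.inr (Or.inr ⟨hu, rfl⟩)) h0 h1 le_rfl (by norm_num)
  have hB : ∀ q r j (s : ℝ), 0 ≤ s → s ≤ 1/4 →
      f (Φ (q, false, pj s), Φ (r, j, pj (5/8))) = f (Φ (q, false, pj 0), Φ (r, j, pj (5/8))) := by
    intro q r j s h0 h1
    exact hseg hΦ hf q false r j 0 (1/4) le_rfl (by norm_num) (by norm_num) (by norm_num)
      (fun u _ hu => Or.inr (Or.inl ⟨hu, rfl⟩)) h0 h1 le_rfl (by norm_num)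
  have hB' : ∀ q r j (s : ℝ), 0 ≤ s → s ≤ 1 →
      f (Φ (q, true, pj s), Φ (r, j, pj (5/8))) = f (Φ (q, false, pj 0), Φ (r, j, pj (5/8))) := by
    intro q r j s h0 h1
    rw [bot0 q false true]
    exact hseg hΦ hf q true r j 0 1 le_rfl le_rfl (by norm_num) (by norm_num)
      (fun u _ _ => Or.inl rfl) h0 h1 le_rfl zero_le_one
  -- vertical moves
  have v1 : ∀ q r j (t : ℝ), 1/8 ≤ t → t ≤ 5/8 →
      f (Φ (q, false, pj (1/4)), Φ (r, j, pj t)) =
        f (Φ (q, false, pj (1/4)), Φ (r, j, pj (1/8))) := by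
    intro q r j t h0 h1
    exact vseg hΦ hf q false r j (1/8) (5/8) (by norm_num) (by norm_num) (by norm_num)
      (by norm_num) (fun u hu hu' => Or.inr (Or.inr (Or.inl ⟨rfl, hu, hu'⟩))) h0 h1 le_rfl
      (by norm_num)
  have v2 : ∀ q r j (t : ℝ), 5/8 ≤ t → t ≤ 1 →
      f (Φ (q, true, pj (1/4)), Φ (r, j, pj t)) =
        f (Φ (q, true, pj (1/4)), Φ (r, j, pj (5/8))) := by
    intro q r j t h0 h1
    exact vseg hΦ hf q true r j (5/8) 1 (by norm_num) le_rfl (by norm_num)
      (by norm_num) (fun u hu _ => Or.inr (Or.inl ⟨rfl, Or.inl hu⟩)) h0 h1 le_rfl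
      (by norm_num)
  have v3 : ∀ q r j (t : ℝ), 0 ≤ t → t ≤ 1/8 →
      f (Φ (q, true, pj (1/4)), Φ (r, j, pj t)) =
        f (Φ (q, true, pj (1/4)), Φ (r, j, pj (1/8))) := by
    intro q r j t h0 h1
    exact vseg hΦ hf q true r j 0 (1/8) le_rfl (by norm_num) (by norm_num)
      (by norm_num) (fun u _ hu => Or.inr (Or.inl ⟨rfl, Or.inr hu⟩)) h0 h1 (by norm_num)
      le_rfl
  -- relations between the hub values
  have A1 : ∀ q r j, f (Φ (σ false q, false, pj 0), Φ (r, j, pj (1/8))) =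
      f (Φ (q, false, pj 0), Φ (r, j, pj (1/8))) := by
    intro q r j
    rw [← top0 q false false]
    exact hA q r j 1 zero_le_one le_rfl
  have B1 : ∀ q r j, f (Φ (σ true q, false, pj 0), Φ (r, j, pj (5/8))) =
      f (Φ (q, false, pj 0), Φ (r, j, pj (5/8))) := by
    intro q r j
    rw [← top0 q true false]
    exact hB' q r j 1 zero_le_one le_rfl
  have AB : ∀ q r j, f (Φ (q, false, pj 0), Φ (r, j, pj (5/8))) =
      f (Φ (q, false, pj 0), Φ (r, j, pj (1/8))) := by
    intro q r j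
    rw [← hB q r j (1/4) (by norm_num) le_rfl, v1 q r j (5/8) (by norm_num) le_rfl,
      hA q r j (1/4) (by norm_num) (by norm_num)]
  have A2 : ∀ q r j, f (Φ (σ true q, false, pj 0), Φ (r, j, pj (1/8))) =
      f (Φ (q, false, pj 0), Φ (r, j, pj (1/8))) := by
    intro q r j
    rw [← AB, ← AB, B1]
  have A3 : ∀ q r j j', f (Φ (q, false, pj 0), Φ (σ j r, j', pj (1/8))) =
      f (Φ (q, false, pj 0), Φ (r, j, pj (1/8))) := by
    intro q r j j'
    rw [← AB q r j, ← hB' q r j (1/4) (by norm_num) (by norm_num),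
      ← v2 q r j 1 (by norm_num) le_rfl, top1 r j j',
      v3 q (σ j r) j' 0 le_rfl (by norm_num), hA' q (σ j r) j' (1/4) (by norm_num) le_rfl]
  have A4 : ∀ q r j, f (Φ (q, false, pj 0), Φ (r, j, pj (1/8))) =
      f (Φ (q, false, pj 0), Φ (r, false, pj (1/8))) := by
    intro q r j
    obtain ⟨r', rfl⟩ := (σ false).surjective r
    rw [A3 q r' false j, A3 q r' false false]
  -- the hub function
  have cq : ∀ r, Continuous fun q : Q => f (Φ (q, false, pj 0), Φ (r, false, pj (1/8))) := by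
    intro r
    refine hf.comp_continuous ?_ ?_
    · exact (hΦ.comp (continuous_id.prodMk continuous_const)).prodMk continuous_const
    · intro q
      exact memW le_rfl zero_le_one (by norm_num) (by norm_num) (Or.inl rfl)
  have cr : ∀ q, Continuous fun r : Q => f (Φ (q, false, pj 0), Φ (r, false, pj (1/8))) := by
    intro q
    refine hf.comp_continuous ?_ ?_
    · exact continuous_const.prodMk (hΦ.comp (continuous_id.prodMk continuous_const))
    · intro r
      exact memW le_rfl zero_le_one (by norm_num) (by norm_num) (Or.inl rfl)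
  have gen : ∀ g : Q → Bool, Continuous g → (∀ i q, g (σ i q) = g q) → ∀ q q', g q = g q' := by
    intro g hg hi q q'
    have hcl : IsClopen (g ⁻¹' {true}) := (isClopen_discrete {true}).preimage hg
    have hin : ∀ i q, q ∈ g ⁻¹' {true} ↔ σ i q ∈ g ⁻¹' {true} := by
      intro i q
      simp only [mem_preimage, mem_singleton_iff, hi]
    rcases htr _ hcl hin with h | h
    · have h1 : ∀ q, g q = false := by
        intro q
        have : q ∉ g ⁻¹' {true} := by rw [h]; exact notMem_empty q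
        simpa using this
      rw [h1, h1]
    · have h1 : ∀ q, g q = true := by
        intro q
        have : q ∈ g ⁻¹' {true} := by rw [h]; exact mem_univ q
        simpa using this
      rw [h1, h1]
  have hubq : ∀ r q q', f (Φ (q, false, pj 0), Φ (r, false, pj (1/8))) =
      f (Φ (q', false, pj 0), Φ (r, false, pj (1/8))) := by
    intro r
    refine gen _ (cq r) ?_
    intro i q
    cases i
    · exact A1 q r false
    · exact A2 q r false
  have hubr : ∀ q r r', f (Φ (q, false, pj 0), Φ (r, false, pj (1/8))) =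
      f (Φ (q, false, pj 0), Φ (r', false, pj (1/8))) := by
    intro q
    refine gen _ (cr q) ?_
    intro i r
    rw [A3 q r i false, A4 q r i]
  have hub : ∀ q r j, f (Φ (q, false, pj 0), Φ (r, j, pj (1/8))) =
      f (Φ (fun _ => false, false, pj 0), Φ (fun _ => false, false, pj (1/8))) := by
    intro q r j
    rw [A4 q r j, hubq r q (fun _ => false), hubr (fun _ => false) r (fun _ => false)]
  have fin : ∀ z ∈ Wset Φ, f z =
      f (Φ (fun _ => false, false, pj 0), Φ (fun _ => false, false, pj (1/8))) := by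
    rintro z ⟨q, i, s, r, j, t, hM, rfl⟩
    rw [← pj_self s, ← pj_self t]
    obtain ⟨s, hs0, hs1⟩ := s
    obtain ⟨t, ht0, ht1⟩ := t
    simp only at hM ⊢
    cases i
    · rcases hM with h | ⟨h, h'⟩ | ⟨h, h', h''⟩ | ⟨h1, h2, h3, h4⟩
      · subst h
        rw [hA q r j s hs0 hs1, hub]
      · subst h'
        rw [hB q r j s hs0 h, AB, hub]
      · subst h
        rw [v1 q r j t h' h'', hA q r j (1/4) hs0 hs1, hub]
      · have e : f (Φ (q, false, pj s), Φ (r, j, pj t)) =
            f (Φ (q, false, pj s), Φ (r, j, pj (1/8))) :=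
          vseg hΦ hf q false r j (1/16) (3/16) (by norm_num) (by norm_num) hs0 hs1
            (fun u hu hu' => Or.inr (Or.inr (Or.inr ⟨h1, h2, hu, hu'⟩))) h3 h4
            (by norm_num) (by norm_num)
        rw [e, hA q r j s hs0 hs1, hub]
    · rcases hM with h | ⟨h, h' | h'⟩ | ⟨h, h'⟩
      · subst h
        rw [hB' q r j s hs0 hs1, AB, hub]
      · subst h
        rw [v2 q r j t h' ht1, hB' q r j (1/4) hs0 hs1, AB, hub]
      · subst h
        rw [v3 q r j t ht0 h', hA' q r j (1/4) hs0 le_rfl, hub]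
      · subst h'
        rw [hA' q r j s hs0 h, hub]
  intro x hx y hy
  rw [fin x hx, fin y hy]

end Pool.Agent.N971.TC
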